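import Pool.Agent.Q270.EG.Main

/-!
Project EG (helper270): two points.
-/

set_option autoImplicit false

namespace Pool.Agent.Q270.EG

open Finset Filter Pool.Agent.Q270.EA Pool.Agent.Q270.EB Pool.Agent.Q270.EC Pool.Agent.Q270.EF

lemma BM_z {z : ℂ} (hz : ‖z‖ ≤ 1) : BM (fun n => z ^ ArithmeticFunction.cardFactors n) := by
  refine ⟨fun n => ?_, by simp, fun m n hmn => ?_⟩
  · rw [norm_pow]
    exact pow_le_one₀ (norm_nonneg _) hz
  rcases Nat.eq_zero_or_pos m with rfl | hm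
  · rw [Nat.coprime_zero_left] at hmn
    subst hmn
    simp
  rcases Nat.eq_zero_or_pos n with rfl | hn
  · rw [Nat.coprime_zero_right] at hmn
    subst hmn
    simp
  dsimp only
  rw [ArithmeticFunction.cardFactors_mul (by omega) (by omega), pow_add]

/-- two-point correlations of `z ^ Ω(n)` and an arbitrary multiplicative function at almost all scales, uniformly -/
lemma two_z (b₁ b₂ : ℕ) (hb : b₁ ≠ b₂) (δ : ℝ) (hδ : 0 < δ) (ε : ℝ) (hε : 0 < ε) :
    ∃ X₀ : ℕ, ∀ X : ℕ, X₀ ≤ X → ∀ z : ℂ, ‖z‖ ≤ 1 → δ ≤ ‖z - 1‖ → ∀ g : ℕ → ℂ, BM g →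
      LM X (fun N => ε < ‖AvN N (fun n => z ^ ArithmeticFunction.cardFactors (n + b₁) * g (n + b₂))‖) ≤ ε := by
  have hp := Pool.Agent.Y842.QY.PB_Zc b₁ b₂ hb δ hδ (ε * ε / 2) (by positivity)
  obtain ⟨X₀, h⟩ := hp
  refine ⟨X₀ + 1, fun X hX z hz hz1 g hg => ?_⟩
  obtain ⟨B, hB1, hB2⟩ := h X (by omega) (fun n => z ^ ArithmeticFunction.cardFactors n) ⟨z, hz, hz1, rfl⟩
    g (fun n _ => hg.1 n) (fun m n _ _ hmn => hg.2.2 m n hmn) (fun N => N) (fun N => le_rfl)
  have hB0 : ∀ N, 0 ≤ B N := fun N => (norm_nonneg _).trans (hB1 N 0)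
  have hee : Pool.Agent.Helper602.MK.ee 0 = 1 := by
    unfold Pool.Agent.Helper602.MK.ee
    simp
  have key : ∀ N : ℕ, 1 ≤ N → ‖AvN N (fun n => z ^ ArithmeticFunction.cardFactors (n + b₁) * g (n + b₂))‖ ≤
      B N / N := by
    intro N hN
    have hN0 : (0 : ℝ) < N := by exact_mod_cast hN
    have h1 := hB1 N 0
    simp only [zero_mul, hee, mul_one] at h1
    unfold AvN
    rw [norm_mul, norm_div, norm_one, Complex.norm_natCast, one_div_mul_eq_div]
    exact div_le_div_of_nonneg_right h1 hN0.le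
  refine (LM_markov X _ (fun N => B N / N) ε hε
        (fun N => div_nonneg (hB0 N) (by positivity)) (fun N hN h => h.le.trans (key N (mem_Icc.1 hN).1))).trans ?_
  rw [div_le_iff₀ hε, div_le_iff₀ (H_pos (by omega))]
  have h3 : ∑ N ∈ Icc 1 X, (1 / (N : ℝ)) * (B N / N) = ∑ N ∈ Icc 1 X, B N / (N : ℝ) ^ 2 := by
    refine sum_congr rfl fun N hN => ?_
    have hN0 : (0 : ℝ) < N := by exact_mod_cast (mem_Icc.1 hN).1
    field_simp
  rw [h3]
  have h4 := H_ge X (by omega)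
  have h5 : 0 ≤ Real.log X := Real.log_natCast_nonneg X
  have h6 : 0 < ε * ε := by positivity
  refine hB2.trans ?_
  nlinarith

end Pool.Agent.Q270.EG
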